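import Pool.Agent.H44.DV.Targets

/-!
# Module FI: there are finitely many periodic states
-/

set_option autoImplicit false

namespace Pool.Agent.H77.DV

open MeasureTheory Pool.Agent.H44.DU

theorem pf_FI (h1 : D_FA) (h2 : D_HY) (h3 : D_RR) (h4 : T_IO) : D_FI := by
  intro n S t c hOK
  clear h3
  have hfin1 := h1 n S t
  have hfin2 := h1 n S.rev t
  have hinj : Function.Injective (S.io t) := by
    intro p q h
    rw [← (h4 n S t).1 p, h, (h4 n S t).1 q]
  refine (hfin1.union (hfin2.preimage hinj.injOn)).subset ?_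
  rintro p ⟨m, y, hc, rfl⟩
  rcases lt_or_gt_of_ne (h2 n S t c hOK.gd hOK.pos hOK.gain m y hc) with h | h
  · left
    exact ⟨m, y, hc, rfl, h⟩
  · right
    refine ⟨m, fun k => S.io t (y (m - k)), ⟨hc.1, ?_, ?_⟩, ?_, ?_⟩
    · intro k hk
      have e1 : m - (k + 1) + 1 = m - k := by omega
      have e2 := hc.2.1 (m - (k + 1)) (by omega)
      rw [e1] at e2
      exact ((h4 n S t).2 _ _).1 e2
    · show S.io t (y (m - m)) = S.io t (y (m - 0))
      rw [Nat.sub_self, Nat.sub_zero, hc.2.2]
    · show S.io t (y (m - 0)) = S.io t (y 0)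
      rw [Nat.sub_zero, hc.2.2]
    · have e1 : ∀ k ∈ Finset.range m, S.rev.a (S.io t (y (m - k))).1 =
          (fun j => (S.a (y (j + 1)).1)⁻¹) (m - 1 - k) := by
        intro k hk
        have hk' := Finset.mem_range.1 hk
        have e2 : m - 1 - k + 1 = m - k := by omega
        show S.a (S.gl (y (m - k)).1) = (S.a (y (m - 1 - k + 1)).1)⁻¹
        rw [e2, S.a_gl]
      have e5 := Finset.prod_range_reflect (fun j => (S.a (y (j + 1)).1)⁻¹) m
      rw [Finset.prod_congr rfl e1, e5, Finset.prod_inv_distrib]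
      have e3 : (∏ j ∈ Finset.range m, S.a (y (j + 1)).1) * S.a (y 0).1 =
          (∏ j ∈ Finset.range m, S.a (y j).1) * S.a (y m).1 := by
        rw [← Finset.prod_range_succ (fun j => S.a (y j).1) m,
          ← Finset.prod_range_succ' (fun j => S.a (y j).1) m]
      rw [hc.2.2] at e3
      have e4 := mul_right_cancel₀ (S.a_pos (y 0).1).ne' e3
      rw [e4]
      exact inv_lt_one_of_one_lt₀ h

end Pool.Agent.H77.DV
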