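import Pool.Agent.H44.DV.Targets

/-!
# Module Z1: long words whose scale is exponentially small are not cut
-/

set_option autoImplicit false

namespace Pool.Agent.H77.DV

open MeasureTheory Filter Pool.Agent.H44.DU

/-- The property of `NBE` for one exponent. -/
def NB1 {n : ℕ} (S : Surf n) (ε t : ℝ) : Prop :=
  ∃ m₀ : ℕ, ∀ (w : List (Side n)) (l : Side n), m₀ ≤ (w ++ [l]).length →
    S.A (w ++ [l]) ≤ Real.exp (-ε * (w ++ [l]).length) → ¬ S.Cut t w l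

/-- The directions in which some word of length `m` with a small scale is cut. -/
def Bm {n : ℕ} (S : Surf n) (t₀ δ ε : ℝ) (m : ℕ) : Set ℝ :=
  {t | |t - t₀| < δ ∧ ∃ (w : List (Side n)) (l : Side n), (w ++ [l]).length = m ∧
    S.A (w ++ [l]) ≤ Real.exp (-ε * m) ∧ S.Cut t w l}

/-- The directions in which one word is cut. -/
def Em {n : ℕ} (S : Surf n) (K ε : ℝ) (m : ℕ) (w' : List (Side n)) : Set ℝ :=
  {t | |t| ≤ K ∧ ∃ (w : List (Side n)) (l : Side n), w ++ [l] = w' ∧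
    S.A (w ++ [l]) ≤ Real.exp (-ε * m) ∧ S.Cut t w l}

lemma vol_Em {n : ℕ} (S : Surf n) (K ε c η D : ℝ) (m : ℕ) (hc : 0 < c) (hm : 3 * n + 1 ≤ m)
    (hη : Real.exp (-ε * m) ≤ η)
    (hQ : ∀ t, |t| ≤ K → ∀ (w : List (Side n)) (l : Side n) (y : ℝ),
      3 * n + 1 ≤ (w ++ [l]).length → S.A (w ++ [l]) ≤ η → S.Run t (w ++ [l]) y →
      c ≤ (S.pt t (S.gl l) (S.g t (w ++ [l]) y)).im - (S.B (w ++ [l])).im)
    (hX : ∀ (w : List (Side n)) (l : Side n) (α c : ℝ), 0 < c → S.A (w ++ [l]) ≤ α →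
      volume {t : ℝ | |t| ≤ K ∧ (∃ y, S.Run t (w ++ [l]) y) ∧
        (∀ y, S.Run t (w ++ [l]) y →
          c ≤ (S.pt t (S.gl l) (S.g t (w ++ [l]) y)).im - (S.B (w ++ [l])).im) ∧
        ∃ x, S.lo t (w ++ [l]) ≤ x ∧ x ≤ S.hi t (w ++ [l]) ∧
          S.g t (w ++ [l]) x = xi t (S.O (S.gl l))} ≤ ENNReal.ofReal (D * α / c))
    (w' : List (Side n)) (hw' : w'.length = m) :
    volume (Em S K ε m w') ≤ ENNReal.ofReal (D * Real.exp (-ε * m) / c) := by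
  rcases List.eq_nil_or_concat' w' with h0 | ⟨w, l, rfl⟩
  · exfalso
    rw [h0, List.length_nil] at hw'
    omega
  · by_cases hA : S.A (w ++ [l]) ≤ Real.exp (-ε * m)
    · refine le_trans (measure_mono ?_) (hX w l (Real.exp (-ε * m)) c hc hA)
      rintro t ⟨htK, w₁, l₁, he, -, hcut⟩
      obtain ⟨rfl, h2⟩ := List.append_inj' he rfl
      have h3 : l₁ = l := List.head_eq_of_cons_eq h2
      subst h3
      refine ⟨htK, hcut.1, ?_, hcut.2⟩
      intro y hy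
      exact hQ t htK _ _ y (by rw [hw']; exact hm) (hA.trans hη) hy
    · have h1 : Em S K ε m (w ++ [l]) = ∅ := by
        ext t
        simp only [Set.mem_empty_iff_false, iff_false]
        rintro ⟨-, w₁, l₁, he, hA', -⟩
        rw [he] at hA'
        exact hA hA'
      rw [h1]
      simp

lemma vol_Bm {n : ℕ} (S : Surf n) (t₀ δ K ε c η D C : ℝ) (m : ℕ) (hc : 0 < c) (hD : 0 < D)
    (hm : 3 * n + 1 ≤ m) (hη : Real.exp (-ε * m) ≤ η) (hK : ∀ t, |t - t₀| < δ → |t| ≤ K)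
    (hC : ({w : List (Side n) | w.length = m ∧ ∃ t x, |t - t₀| < δ ∧ S.Run t w x}.ncard : ℝ) ≤
      C * Real.exp (ε / 2 * m))
    (hQ : ∀ t, |t| ≤ K → ∀ (w : List (Side n)) (l : Side n) (y : ℝ),
      3 * n + 1 ≤ (w ++ [l]).length → S.A (w ++ [l]) ≤ η → S.Run t (w ++ [l]) y →
      c ≤ (S.pt t (S.gl l) (S.g t (w ++ [l]) y)).im - (S.B (w ++ [l])).im)
    (hX : ∀ (w : List (Side n)) (l : Side n) (α c : ℝ), 0 < c → S.A (w ++ [l]) ≤ α →
      volume {t : ℝ | |t| ≤ K ∧ (∃ y, S.Run t (w ++ [l]) y) ∧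
        (∀ y, S.Run t (w ++ [l]) y →
          c ≤ (S.pt t (S.gl l) (S.g t (w ++ [l]) y)).im - (S.B (w ++ [l])).im) ∧
        ∃ x, S.lo t (w ++ [l]) ≤ x ∧ x ≤ S.hi t (w ++ [l]) ∧
          S.g t (w ++ [l]) x = xi t (S.O (S.gl l))} ≤ ENNReal.ofReal (D * α / c)) :
    volume (Bm S t₀ δ ε m) ≤ ENNReal.ofReal (C * D / c * Real.exp (-(ε / 2)) ^ m) := by
  have hfin : {w : List (Side n) | w.length = m ∧ ∃ t x, |t - t₀| < δ ∧ S.Run t w x}.Finite :=
    (List.finite_length_eq (Side n) m).subset (fun w hw => hw.1)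
  have hcard : (hfin.toFinset.card : ℝ) ≤ C * Real.exp (ε / 2 * m) := by
    rw [← Set.ncard_eq_toFinset_card _ hfin]
    exact hC
  have hsub : Bm S t₀ δ ε m ⊆ ⋃ w' ∈ hfin.toFinset, Em S K ε m w' := by
    rintro t ⟨ht, w, l, hl, hA, hcut⟩
    rw [Set.mem_iUnion₂]
    refine ⟨w ++ [l], ?_, hK t ht, w, l, rfl, hA, hcut⟩
    rw [Set.Finite.mem_toFinset]
    obtain ⟨y, hy⟩ := hcut.1
    exact ⟨hl, t, y, ht, hy⟩
  have hE : 0 ≤ D * Real.exp (-ε * m) / c := by positivity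
  calc volume (Bm S t₀ δ ε m) ≤ volume (⋃ w' ∈ hfin.toFinset, Em S K ε m w') := measure_mono hsub
    _ ≤ ∑ w' ∈ hfin.toFinset, volume (Em S K ε m w') := measure_biUnion_finset_le _ _
    _ ≤ ∑ w' ∈ hfin.toFinset, ENNReal.ofReal (D * Real.exp (-ε * m) / c) := by
        apply Finset.sum_le_sum
        intro w' hw'
        rw [Set.Finite.mem_toFinset] at hw'
        exact vol_Em S K ε c η D m hc hm hη hQ hX w' hw'.1
    _ = ENNReal.ofReal (hfin.toFinset.card * (D * Real.exp (-ε * m) / c)) := by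
        rw [Finset.sum_const, nsmul_eq_mul, ENNReal.ofReal_mul (Nat.cast_nonneg _),
          ENNReal.ofReal_natCast]
    _ ≤ ENNReal.ofReal (C * D / c * Real.exp (-(ε / 2)) ^ m) := by
        apply ENNReal.ofReal_le_ofReal
        have e1 : Real.exp (-(ε / 2)) ^ m = Real.exp (ε / 2 * m) * Real.exp (-ε * m) := by
          rw [← Real.exp_nat_mul, ← Real.exp_add]
          congr 1
          ring
        rw [e1]
        calc (hfin.toFinset.card : ℝ) * (D * Real.exp (-ε * m) / c) ≤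
            C * Real.exp (ε / 2 * m) * (D * Real.exp (-ε * m) / c) :=
              mul_le_mul_of_nonneg_right hcard hE
          _ = C * D / c * (Real.exp (ε / 2 * m) * Real.exp (-ε * m)) := by ring

lemma nb1_local (h1 : D_QH) (h2 : D_WN) (h3 : T_X4) {n : ℕ} (S : Surf n) (ε t₀ : ℝ)
    (hε : 0 < ε) : ∃ δ > 0, ∀ᵐ t : ℝ, |t - t₀| < δ → NB1 S ε t := by
  obtain ⟨δ, hδ, C, hC, hWN⟩ := h2 n S t₀ (ε / 2) (by linarith)
  obtain ⟨c, hc, η, hη, hQ⟩ := h1 n S (|t₀| + δ)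
  obtain ⟨D, hD, hX⟩ := h3 n S (|t₀| + δ)
  have hK : ∀ t, |t - t₀| < δ → |t| ≤ |t₀| + δ := by
    intro t ht
    have h9 : |t| ≤ |t - t₀| + |t₀| := by
      have := abs_add_le (t - t₀) t₀
      simpa using this
    linarith
  obtain ⟨m₁, hm₁⟩ : ∃ m₁ : ℕ, ∀ m ≥ m₁, Real.exp (-ε * (m : ℝ)) ≤ η := by
    have hr0 : 0 ≤ Real.exp (-ε) := (Real.exp_pos _).le
    have hr1 : Real.exp (-ε) < 1 := by
      rw [Real.exp_lt_one_iff]; linarith
    have hlim := tendsto_pow_atTop_nhds_zero_of_lt_one hr0 hr1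
    have hev := hlim.eventually (gt_mem_nhds hη)
    obtain ⟨m₁, hm₁⟩ := eventually_atTop.1 hev
    refine ⟨m₁, fun m hm => ?_⟩
    have e1 := hm₁ m hm
    rw [← Real.exp_nat_mul] at e1
    rw [show -ε * (m : ℝ) = m * -ε by ring]
    exact e1.le
  refine ⟨δ, hδ, ?_⟩
  have hr0 : 0 ≤ Real.exp (-(ε / 2)) := (Real.exp_pos _).le
  have hr1 : Real.exp (-(ε / 2)) < 1 := by
    rw [Real.exp_lt_one_iff]; linarith
  have hsum : ∑' i, volume (Bm S t₀ δ ε (i + (m₁ + (3 * n + 1)))) ≠ ⊤ := by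
    have hs : Summable (fun i : ℕ => C * D / c *
        Real.exp (-(ε / 2)) ^ (i + (m₁ + (3 * n + 1)))) := by
      simp_rw [pow_add _ _ (m₁ + (3 * n + 1))]
      exact ((summable_geometric_of_lt_one hr0 hr1).mul_right _).mul_left _
    refine ne_top_of_le_ne_top hs.tsum_ofReal_ne_top (ENNReal.tsum_le_tsum fun i => ?_)
    exact vol_Bm S t₀ δ (|t₀| + δ) ε c η D C (i + (m₁ + (3 * n + 1))) hc hD (by omega)
      (hm₁ _ (by omega)) hK (hWN _) hQ hX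
  have hae := ae_eventually_notMem hsum
  filter_upwards [hae] with t ht htd
  obtain ⟨i₀, hi₀⟩ := eventually_atTop.1 ht
  refine ⟨i₀ + (m₁ + (3 * n + 1)), ?_⟩
  intro w l hlen hA hcut
  obtain ⟨i, hi⟩ : ∃ i, (w ++ [l]).length = i + (m₁ + (3 * n + 1)) :=
    ⟨(w ++ [l]).length - (m₁ + (3 * n + 1)), by omega⟩
  refine hi₀ i (by omega) ⟨htd, w, l, hi, ?_, hcut⟩
  rw [hi] at hA
  exact hA

theorem pf_Z1 (h1 : D_QH) (h2 : D_WN) (h3 : T_X4) : D_Z1 := by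
  intro n S
  have hall : ∀ i : ℕ, ∀ᵐ t : ℝ, NB1 S (1 / ((i : ℝ) + 1)) t := by
    intro i
    have hpos : (0 : ℝ) < 1 / ((i : ℝ) + 1) := by positivity
    rw [ae_iff]
    apply measure_null_of_locally_null
    intro t₀ _
    obtain ⟨δ, hδ, hae⟩ := nb1_local h1 h2 h3 S (1 / ((i : ℝ) + 1)) t₀ hpos
    refine ⟨{t : ℝ | ¬ (|t - t₀| < δ → NB1 S (1 / ((i : ℝ) + 1)) t)}, ?_, ?_⟩
    · rw [mem_nhdsWithin]
      refine ⟨Metric.ball t₀ δ, Metric.isOpen_ball, Metric.mem_ball_self hδ, ?_⟩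
      rintro t ⟨ht, hn⟩
      rw [Metric.mem_ball, Real.dist_eq] at ht
      exact fun h => hn (h ht)
    · rw [ae_iff] at hae
      exact hae
  rw [← ae_all_iff] at hall
  filter_upwards [hall] with t ht
  intro ε hε
  obtain ⟨i, hi⟩ := exists_nat_one_div_lt hε
  obtain ⟨m₀, hm₀⟩ := ht i
  refine ⟨m₀, fun w l hlen hA => hm₀ w l hlen (hA.trans ?_)⟩
  apply Real.exp_le_exp.2
  have h5 : (0 : ℝ) ≤ ((w ++ [l]).length : ℝ) := Nat.cast_nonneg _
  have h6 : 1 / ((i : ℝ) + 1) * ((w ++ [l]).length : ℝ) ≤ ε * ((w ++ [l]).length : ℝ) :=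
    mul_le_mul_of_nonneg_right hi.le h5
  linarith

end Pool.Agent.H77.DV
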